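import Pool.Agent.Helper20.QG.H1

/-!
# The diagonal set against the polynomial-time hierarchy: semantics
-/

set_option autoImplicit false

namespace Pool.Agent.Helper20.QG

open FirstOrder Pool.Agent.Helper20.Spectra Pool.Agent.Helper14.SS Pool.Agent.Helper12.SS

/-- the level `a` meets `T` -/
def lev (T : Set ℕ) (K a : ℕ) : Prop := ∃ y ∈ T, a ^ K < y ∧ y ≤ (a + 1) ^ K

lemma oneAt_iff {n B M g : ℕ} {X : Finset (Fin n)} {x : ℕ} (hB : 2 ≤ B) (hg : g < M)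
    (hX : Cd B M 0 X x) : OneAt B M g X ↔ x = B ^ g := by
  have hc : ∀ i, i < M → ∀ d, d < B → (inV X (i * B + d) ↔ dg B x i = d) := by
    intro i hi d hd
    have := hX.2 i hi d hd
    rw [zero_add] at this
    exact this
  have hD : ∀ i < M, (if i = g then 1 else 0) < B := by
    intro i _
    split_ifs <;> omega
  have hv : dval B M (fun i => if i = g then 1 else 0) = B ^ g := by
    unfold dval
    rw [Finset.sum_eq_single g]
    · simp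
    · intro i _ hi
      simp [hi]
    · intro h
      exact absurd (Finset.mem_range.2 hg) h
  have hd : ∀ i, i < M → dg B (B ^ g) i = if i = g then 1 else 0 := by
    rw [← hv]
    exact dg_dval hD
  have key : OneAt B M g X ↔ ∀ i, i < M → dg B x i = if i = g then 1 else 0 := by
    unfold OneAt
    apply forall_congr'
    intro i
    apply forall_congr'
    intro hi
    rw [hc i hi 1 (by omega), hc i hi 0 (by omega)]
    by_cases h : i = g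
    · simp [h]
    · simp [h]
  rw [key]
  constructor
  · intro h
    exact eq_of_dg (by omega) hX.1 (Nat.pow_lt_pow_right (by omega) hg)
      (fun i hi => (h i hi).trans (hd i hi).symm)
  · rintro rfl
    exact hd

lemma three_digits {B y : ℕ} (hB : 1 ≤ B) (hy : y < B ^ 3) :
    ∃ y0, y0 < B ∧ ∃ y1, y1 < B ∧ ∃ y2, y2 < B ∧ y0 + y1 * B + y2 * B * B = y := by
  refine ⟨y % B, Nat.mod_lt _ hB, y / B % B, Nat.mod_lt _ hB, y / B / B, ?_, ?_⟩
  · rw [Nat.div_lt_iff_lt_mul (by omega), Nat.div_lt_iff_lt_mul (by omega)]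
    calc y < B ^ 3 := hy
      _ = B * B * B := by ring
  · have h1 := Nat.div_add_mod y B
    have h2 := Nat.div_add_mod (y / B) B
    calc y % B + y / B % B * B + y / B / B * B * B
        = y % B + (B * (y / B / B) + y / B % B) * B := by ring
      _ = y % B + (y / B) * B := by rw [h2]
      _ = B * (y / B) + y % B := by ring
      _ = y := h1

/-- parameters -/
structure Pr (n b B M g e : ℕ) : Prop where
  ctx : Ctx n b B M
  four : 4 ≤ B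
  eB : e ≤ B
  three : 3 ≤ g
  gM : g < M
  n3 : n ≤ B ^ 3

lemma Pr.hp {n b B M g e : ℕ} (h : Pr n b B M g e) : n ≤ B ^ g :=
  h.n3.trans (Nat.pow_le_pow_right (by have := h.four; omega) h.three)

lemma inT_iff {n b e : ℕ} {B M g : Fin n} {PT : Pd 2 2} {E : Set ℕ}
    (h : Pr n b (B : ℕ) (M : ℕ) (g : ℕ) e) (hT : Ev PT e (ST E))
    (hpow : ((B : ℕ) ^ (g : ℕ) + 2) ^ e ≤ (B : ℕ) ^ (M : ℕ)) {y : ℕ} (hy : y < n) :
    InT PT b B M g y ↔ (y + (B : ℕ) ^ (g : ℕ)) ^ 2 + y ∈ E := by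
  have h4 := h.four
  have hM3 : 3 ≤ (M : ℕ) := by have := h.three; have := h.gM; omega
  have hpB : (B : ℕ) ^ (g : ℕ) < (B : ℕ) ^ (M : ℕ) := Nat.pow_lt_pow_right (by omega) h.gM
  have ev : ∀ {Yc Pc : Finset (Fin n)}, Cd (B : ℕ) (M : ℕ) 0 Yc y →
      Cd (B : ℕ) (M : ℕ) 0 Pc ((B : ℕ) ^ (g : ℕ)) →
      (PT n b ![B, M] ![Yc, Pc] ↔ (y + (B : ℕ) ^ (g : ℕ)) ^ 2 + y ∈ E) := by
    intro Yc Pc c1 c2
    refine (hT n b ![B, M] (B : ℕ) (M : ℕ) rfl rfl (by omega) h.eB h.ctx.sq h.ctx.card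
      h.ctx.room ![Yc, Pc] ![y, (B : ℕ) ^ (g : ℕ)] ?_ ((B : ℕ) ^ (g : ℕ)) ?_ hpow).trans Iff.rfl
    · intro j
      fin_cases j
      · exact c1
      · exact c2
    · intro j
      fin_cases j
      · show y ≤ _
        have := h.hp
        omega
      · exact le_rfl
  constructor
  · rintro ⟨y0, h0, y1, h1, y2, h2, hyy, Yc, _, Pc, _, n1, n2, d1, o1, hP⟩
    obtain ⟨y', hYc⟩ := (t_num n _ _ 0 Yc (by omega)).1 n1
    obtain ⟨p', hPc⟩ := (t_num n _ _ 0 Pc (by omega)).1 n2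
    rw [dig3_iff hM3 h0 h1 h2 hYc] at d1
    rw [oneAt_iff (by omega) h.gM hPc] at o1
    rw [d1, hyy] at hYc
    rw [o1] at hPc
    exact (ev hYc hPc).1 hP
  · intro hE
    obtain ⟨y0, h0, y1, h1, y2, h2, hyy⟩ := three_digits (B := (B : ℕ)) (y := y) (by omega)
      (lt_of_lt_of_le hy h.n3)
    have hyM : y < (B : ℕ) ^ (M : ℕ) := by have := h.hp; omega
    obtain ⟨Yc, c1, hYc⟩ := ex_code t_exCd h.ctx hyM
    obtain ⟨Pc, c2, hPc⟩ := ex_code t_exCd h.ctx hpB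
    exact ⟨y0, h0, y1, h1, y2, h2, hyy, Yc, c1, Pc, c2, (t_num n _ _ 0 _ (by omega)).2 ⟨_, hYc⟩,
      (t_num n _ _ 0 _ (by omega)).2 ⟨_, hPc⟩, (dig3_iff hM3 h0 h1 h2 hYc).2 hyy.symm,
      (oneAt_iff (by omega) h.gM hPc).2 rfl, (ev hYc hPc).2 hE⟩

lemma lev_iff {n b e K : ℕ} {B M g : Fin n} {PT : Pd 2 2} {E T : Set ℕ}
    (h : Pr n b (B : ℕ) (M : ℕ) (g : ℕ) e) (hT : Ev PT e (ST E))
    (hpow : ((B : ℕ) ^ (g : ℕ) + 2) ^ e ≤ (B : ℕ) ^ (M : ℕ))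
    (hE : ∀ y, 1 ≤ y → y < n → (y ∈ T ↔ (y + (B : ℕ) ^ (g : ℕ)) ^ 2 + y ∈ E))
    (hgn : (g : ℕ) ^ K < n) {a : ℕ} (ha : a < (g : ℕ)) :
    Lev PT K b B M g a ↔ lev T K a := by
  have hle : (a + 1) ^ K < n := lt_of_le_of_lt (Nat.pow_le_pow_left ha K) hgn
  constructor
  · rintro ⟨y, h1, h2, h3⟩
    rw [inT_iff h hT hpow y.is_lt, ← hE y (by omega) y.is_lt] at h3
    exact ⟨y, h3, h1, by omega⟩
  · rintro ⟨y, h1, h2, h3⟩
    refine ⟨⟨y, by omega⟩, h2, by show ¬ _ < y; omega, ?_⟩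
    show InT PT b B M g y
    rw [inT_iff h hT hpow (by omega), ← hE y (by omega) (by omega)]
    exact h1

open Classical in
lemma cntP_iff {n b K : ℕ} {B M g : Fin n} {PT : Pd 2 2} {T : Set ℕ}
    (hl : ∀ a, a < (g : ℕ) → (Lev PT K b B M g a ↔ lev T K a)) (hgB : (g : ℕ) < (B : ℕ))
    (hroom : ((g : ℕ) + 1) * (B : ℕ) ≤ n) (hb : (g : ℕ) + 1 ≤ b) {j : ℕ} (hj : j < (B : ℕ)) :
    (∃ V : Finset (Fin n), V.card ≤ b ∧ (CntP PT K b B M g V ∧
      inV V ((g : ℕ) * (B : ℕ) + j))) ↔ j = Nat.count (lev T K) (g : ℕ) := by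
  have hcB : ∀ a, a ≤ (g : ℕ) → Nat.count (lev T K) a < (B : ℕ) := fun a ha =>
    lt_of_le_of_lt ((Nat.count_le (p := lev T K) (n := a)).trans ha) hgB
  constructor
  · rintro ⟨V, _, ⟨h0, h1⟩, h2⟩
    have key : ∀ a, a ≤ (g : ℕ) → ∀ d, d < (B : ℕ) →
        (inV V (a * (B : ℕ) + d) ↔ d = Nat.count (lev T K) a) := by
      intro a
      induction a with
      | zero => intro _ d hd; rw [Nat.count_zero]; exact h0 d hd
      | succ a ih =>
        intro ha d hd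
        have ih' := ih (by omega)
        rw [h1 a (by omega) d hd, hl a (by omega), Nat.count_succ]
        by_cases hla : lev T K a
        · rw [if_pos hla]
          constructor
          · rintro (⟨_, d', hd', he, hi⟩ | ⟨h3, _⟩)
            · rw [ih' d' hd'] at hi
              omega
            · exact absurd hla h3
          · intro h3
            refine Or.inl ⟨hla, Nat.count (lev T K) a, hcB a (by omega), h3.symm, ?_⟩
            rw [ih' _ (hcB a (by omega))]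
        · rw [if_neg hla, add_zero]
          constructor
          · rintro (⟨h3, _⟩ | ⟨_, h3⟩)
            · exact absurd h3 hla
            · exact (ih' d hd).1 h3
          · intro h3
            exact Or.inr ⟨hla, (ih' d hd).2 h3⟩
    exact (key _ le_rfl j hj).1 h2
  · intro hjc
    let D : ℕ → ℕ := fun a => if a ≤ (g : ℕ) then Nat.count (lev T K) a else 0
    have hD : ∀ p, D p < (B : ℕ) := by
      intro p
      simp only [D]
      split_ifs with h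
      · exact hcB p h
      · omega
    have hDa : ∀ a, a ≤ (g : ℕ) → D a = Nat.count (lev T K) a := fun a ha => if_pos ha
    have hin : ∀ a, a ≤ (g : ℕ) → ∀ d, d < (B : ℕ) →
        (inV (mkSet n (B : ℕ) ((g : ℕ) + 1) D) (a * (B : ℕ) + d) ↔ Nat.count (lev T K) a = d) := by
      intro a ha d hd
      rw [inV_mkSet hD hroom (by omega) hd, hDa a ha]
    refine ⟨mkSet n (B : ℕ) ((g : ℕ) + 1) D, (card_mkSet _ _ _ _).trans hb, ⟨?_, ?_⟩, ?_⟩
    · intro d hd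
      rw [hin 0 (by omega) d hd, Nat.count_zero]
      exact eq_comm
    · intro a ha d hd
      rw [hin (a + 1) (by omega) d hd, hl a ha, Nat.count_succ]
      by_cases hla : lev T K a
      · rw [if_pos hla]
        constructor
        · intro h3
          refine Or.inl ⟨hla, Nat.count (lev T K) a, hcB a (by omega), h3, ?_⟩
          rw [hin a (by omega) _ (hcB a (by omega))]
        · rintro (⟨_, d', hd', he, hi⟩ | ⟨h3, _⟩)
          · rw [hin a (by omega) d' hd'] at hi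
            omega
          · exact absurd hla h3
      · rw [if_neg hla, add_zero]
        constructor
        · intro h3
          exact Or.inr ⟨hla, (hin a (by omega) d hd).2 h3⟩
        · rintro (⟨h3, _⟩ | ⟨_, h3⟩)
          · exact absurd h3 hla
          · exact (hin a (by omega) d hd).1 h3
    · rw [hin _ le_rfl j hj]
      exact hjc.symm

lemma reqP_iff {n b e : ℕ} {B M g q : Fin n} {P1 P3 : Pd 2 3} {E : Set ℕ}
    (h : Pr n b (B : ℕ) (M : ℕ) (g : ℕ) e) (h1 : Ev P1 e SP) (h3 : Ev P3 e (S3 E))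
    (hgq : (g : ℕ) ≤ (q : ℕ)) (hqM : (q : ℕ) < (M : ℕ))
    (hpow : ((B : ℕ) ^ (q : ℕ) + 2) ^ e ≤ (B : ℕ) ^ (M : ℕ)) {a0 a1 k t : ℕ}
    (h0 : a0 < (B : ℕ)) (ha1 : a1 < (B : ℕ)) (hn : a0 + a1 * (B : ℕ) + 1 * (B : ℕ) * (B : ℕ) = n)
    (ht : t < (B : ℕ)) (hk : k ≤ (M : ℕ)) (hn1 : 1 ≤ n)
    (hm : (n + (B : ℕ) ^ (g : ℕ)) ^ 2 + n < (B : ℕ) ^ (q : ℕ))
    (hy : ((n + (B : ℕ) ^ (g : ℕ)) ^ 2 + n) ^ (k + 1) < (B : ℕ) ^ (q : ℕ)) :
    ReqP P1 P3 b B M g q a0 a1 k t ↔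
      (ux (((n + (B : ℕ) ^ (g : ℕ)) ^ 2 + n) ^ (k + 1)) t + (B : ℕ) ^ (q : ℕ)) *
        (ux (((n + (B : ℕ) ^ (g : ℕ)) ^ 2 + n) ^ (k + 1)) t + (B : ℕ) ^ (q : ℕ)) +
        ux (((n + (B : ℕ) ^ (g : ℕ)) ^ 2 + n) ^ (k + 1)) t ∈ E := by
  have h4 := h.four
  have hB : 1 ≤ (B : ℕ) := by omega
  have hM3 : 3 ≤ (M : ℕ) := by have := h.three; have := h.gM; omega
  have hpq : (B : ℕ) ^ (g : ℕ) ≤ (B : ℕ) ^ (q : ℕ) := Nat.pow_le_pow_right hB hgq
  have hqMp : (B : ℕ) ^ (q : ℕ) < (B : ℕ) ^ (M : ℕ) := Nat.pow_lt_pow_right (by omega) hqM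
  have hnp := h.hp
  have hBp : (B : ℕ) ≤ (B : ℕ) ^ (g : ℕ) := Nat.le_self_pow (by have := h.three; omega) _
  obtain ⟨m, hmm⟩ : ∃ m, m = (n + (B : ℕ) ^ (g : ℕ)) ^ 2 + n := ⟨_, rfl⟩
  rw [← hmm] at hm hy ⊢
  have hm1 : 1 ≤ m := by omega
  have ev1 : ∀ {Mc Nc Pc : Finset (Fin n)} {m' : ℕ}, Cd (B : ℕ) (M : ℕ) 0 Mc m' →
      Cd (B : ℕ) (M : ℕ) 0 Nc n → Cd (B : ℕ) (M : ℕ) 0 Pc ((B : ℕ) ^ (g : ℕ)) →
      m' < (B : ℕ) ^ (q : ℕ) → (P1 n b ![B, M] ![Mc, Nc, Pc] ↔ m' = m) := by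
    intro Mc Nc Pc m' c1 c2 c3 hm'
    rw [hmm]
    refine (h1 n b ![B, M] (B : ℕ) (M : ℕ) rfl rfl (by omega) h.eB h.ctx.sq h.ctx.card
      h.ctx.room ![Mc, Nc, Pc] ![m', n, (B : ℕ) ^ (g : ℕ)] ?_ ((B : ℕ) ^ (q : ℕ)) ?_
      hpow).trans Iff.rfl
    · intro j
      fin_cases j
      · exact c1
      · exact c2
      · exact c3
    · intro j
      fin_cases j
      · show m' ≤ _
        omega
      · show n ≤ _
        omega
      · exact hpq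
  have ev3 : ∀ {Yc Tc Qc : Finset (Fin n)} {y : ℕ}, Cd (B : ℕ) (M : ℕ) 0 Yc y →
      Cd (B : ℕ) (M : ℕ) 0 Tc t → Cd (B : ℕ) (M : ℕ) 0 Qc ((B : ℕ) ^ (q : ℕ)) →
      y < (B : ℕ) ^ (q : ℕ) → (P3 n b ![B, M] ![Yc, Tc, Qc] ↔
        (ux y t + (B : ℕ) ^ (q : ℕ)) * (ux y t + (B : ℕ) ^ (q : ℕ)) + ux y t ∈ E) := by
    intro Yc Tc Qc y c1 c2 c3 hy'
    refine (h3 n b ![B, M] (B : ℕ) (M : ℕ) rfl rfl (by omega) h.eB h.ctx.sq h.ctx.card
      h.ctx.room ![Yc, Tc, Qc] ![y, t, (B : ℕ) ^ (q : ℕ)] ?_ ((B : ℕ) ^ (q : ℕ)) ?_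
      hpow).trans Iff.rfl
    · intro j
      fin_cases j
      · exact c1
      · exact c2
      · exact c3
    · intro j
      fin_cases j
      · show y ≤ _
        omega
      · show t ≤ _
        omega
      · exact le_rfl
  constructor
  · rintro ⟨Nc, _, Pc, _, Mc, _, Yc, _, Tc, _, Qc, _, n1, n2, n3, n4, n5, n6, d1, d2, o1, o2,
      z1, z2, p1, pw, p3⟩
    obtain ⟨n', hNc⟩ := (t_num n _ _ 0 Nc hB).1 n1
    obtain ⟨p', hPc⟩ := (t_num n _ _ 0 Pc hB).1 n2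
    obtain ⟨m', hMc⟩ := (t_num n _ _ 0 Mc hB).1 n3
    obtain ⟨y', hYc⟩ := (t_num n _ _ 0 Yc hB).1 n4
    obtain ⟨t', hTc⟩ := (t_num n _ _ 0 Tc hB).1 n5
    obtain ⟨q', hQc⟩ := (t_num n _ _ 0 Qc hB).1 n6
    rw [dig3_iff hM3 h0 ha1 (by omega) hNc] at d1
    rw [dig3_iff hM3 ht (by omega) (by omega) hTc] at d2
    rw [oneAt_iff (by omega) h.gM hPc] at o1
    rw [oneAt_iff (by omega) hqM hQc] at o2
    rw [hz_iff hB hqM.le hMc] at z1
    rw [hz_iff hB hqM.le hYc] at z2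
    have e1 : n' = n := d1.trans hn
    have e2 : t' = t := by rw [d2]; ring
    rw [e1] at hNc
    rw [e2] at hTc
    rw [o1] at hPc
    rw [o2] at hQc
    rw [ev1 hMc hNc hPc z1] at p1
    rw [powP_iff h.ctx hk (by omega) hMc hYc, p1] at pw
    rw [ev3 hYc hTc hQc z2, pw] at p3
    exact p3
  · intro hE
    obtain ⟨Nc, b1, hNc⟩ := ex_code t_exCd h.ctx (x := n) (by omega)
    obtain ⟨Pc, b2, hPc⟩ := ex_code t_exCd h.ctx (x := (B : ℕ) ^ (g : ℕ)) (by omega)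
    obtain ⟨Mc, b3, hMc⟩ := ex_code t_exCd h.ctx (x := m) (by omega)
    obtain ⟨Yc, b4, hYc⟩ := ex_code t_exCd h.ctx (x := m ^ (k + 1)) (by omega)
    obtain ⟨Tc, b5, hTc⟩ := ex_code t_exCd h.ctx (x := t) (by omega)
    obtain ⟨Qc, b6, hQc⟩ := ex_code t_exCd h.ctx (x := (B : ℕ) ^ (q : ℕ)) (by omega)
    refine ⟨Nc, b1, Pc, b2, Mc, b3, Yc, b4, Tc, b5, Qc, b6, (t_num n _ _ 0 _ hB).2 ⟨_, hNc⟩,
      (t_num n _ _ 0 _ hB).2 ⟨_, hPc⟩, (t_num n _ _ 0 _ hB).2 ⟨_, hMc⟩,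
      (t_num n _ _ 0 _ hB).2 ⟨_, hYc⟩, (t_num n _ _ 0 _ hB).2 ⟨_, hTc⟩,
      (t_num n _ _ 0 _ hB).2 ⟨_, hQc⟩, ?_, ?_, ?_, ?_, ?_, ?_, ?_, ?_, ?_⟩
    · rw [dig3_iff hM3 h0 ha1 (by omega) hNc]; exact hn.symm
    · rw [dig3_iff hM3 ht (by omega) (by omega) hTc]; ring
    · exact (oneAt_iff (by omega) h.gM hPc).2 rfl
    · exact (oneAt_iff (by omega) hqM hQc).2 rfl
    · exact (hz_iff hB hqM.le hMc).2 hm
    · exact (hz_iff hB hqM.le hYc).2 hy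
    · exact (ev1 hMc hNc hPc hm).2 rfl
    · exact (powP_iff h.ctx hk hm1 hMc hYc).2 rfl
    · exact (ev3 hYc hTc hQc hy).2 hE

end Pool.Agent.Helper20.QG
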