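import Pool.Agent.Helper12.SS.ADiag
import Pool.Agent.Helper58.QD.Stub

/-!
# The diagonal set against the polynomial-time hierarchy: formulas
-/

set_option autoImplicit false

namespace Pool.Agent.Helper20.QG

open FirstOrder Pool.Agent.Helper20.Spectra Pool.Agent.Helper14.SS Pool.Agent.Helper12.SS

/-- the coded number is `B ^ g` -/
def OneAt {n : ℕ} (B M g : ℕ) (X : Finset (Fin n)) : Prop :=
  ∀ i, i < M → ((i = g → inV X (i * B + 1)) ∧ (¬ i = g → inV X (i * B + 0)))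

/-- relation for membership in `T`: `(y, p)` -/
def ST (E : Set ℕ) : Set (Fin 2 → ℕ) := {w | (w 0 + w 1) ^ 2 + w 0 ∈ E}

/-- relation for the pair: `(m, n, p)` -/
def SP : Set (Fin 3 → ℕ) := {w | w 0 = (w 1 + w 2) ^ 2 + w 1}

lemma rud_ST {E : Set ℕ} (hE : IsRudimentary E) : Rud 2 (ST E) := by
  have h : RudX (fun x : Empty => x.elim) 2 (fun _ w => (w 0 + w 1) ^ 2 + w 0 ∈ E) :=
    RudX.mem hE ((((IsPoly.var 0).add (IsPoly.var 1)).pow 2).add (IsPoly.var 0))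
  exact h.toRud

lemma rud_SP : Rud 3 SP := by
  have h : RudX (fun x : Empty => x.elim) 3 (fun _ w => w 0 = (w 1 + w 2) ^ 2 + w 1) :=
    RudX.eq (IsPoly.var 0) ((((IsPoly.var 1).add (IsPoly.var 2)).pow 2).add (IsPoly.var 1))
  exact h.toRud

/-- the element `y` belongs to `T` -/
def InT (PT : Pd 2 2) {n : ℕ} (b : ℕ) (B M g : Fin n) (y : ℕ) : Prop :=
  ∃ y0, y0 < (B : ℕ) ∧ ∃ y1, y1 < (B : ℕ) ∧ ∃ y2, y2 < (B : ℕ) ∧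
    (y0 + y1 * (B : ℕ) + y2 * (B : ℕ) * (B : ℕ) = y ∧
    ∃ Yc : Finset (Fin n), Yc.card ≤ b ∧ ∃ Pc : Finset (Fin n), Pc.card ≤ b ∧
    (Num (B : ℕ) (M : ℕ) 0 Yc ∧ (Num (B : ℕ) (M : ℕ) 0 Pc ∧
    (Dig3 (B : ℕ) (M : ℕ) Yc y0 y1 y2 ∧ (OneAt (B : ℕ) (M : ℕ) (g : ℕ) Pc ∧
    PT n b ![B, M] ![Yc, Pc])))))

/-- the level `a` meets `T` -/
def Lev (PT : Pd 2 2) (K : ℕ) {n : ℕ} (b : ℕ) (B M g : Fin n) (a : ℕ) : Prop :=
  ∃ y : Fin n, (a ^ K < (y : ℕ) ∧ (¬ (a + 1) ^ K < (y : ℕ) ∧ InT PT b B M g (y : ℕ)))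

/-- `V` counts the levels which meet `T` -/
def CntP (PT : Pd 2 2) (K : ℕ) {n : ℕ} (b : ℕ) (B M g : Fin n) (V : Finset (Fin n)) : Prop :=
  (∀ d, d < (B : ℕ) → (inV V (0 * (B : ℕ) + d) ↔ d = 0)) ∧
  ∀ a, a < (g : ℕ) → ∀ d, d < (B : ℕ) → (inV V ((a + 1) * (B : ℕ) + d) ↔
    ((Lev PT K b B M g a ∧ ∃ d', d' < (B : ℕ) ∧ (d' + 1 = d ∧ inV V (a * (B : ℕ) + d'))) ∨
    (¬ Lev PT K b B M g a ∧ inV V (a * (B : ℕ) + d))))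

/-- the requirement `(k, t)` at `n = a0 + a1 * B + B * B` -/
def ReqP (P1 P3 : Pd 2 3) {n : ℕ} (b : ℕ) (B M g q : Fin n) (a0 a1 k t : ℕ) : Prop :=
  ∃ Nc : Finset (Fin n), Nc.card ≤ b ∧ ∃ Pc : Finset (Fin n), Pc.card ≤ b ∧
  ∃ Mc : Finset (Fin n), Mc.card ≤ b ∧ ∃ Yc : Finset (Fin n), Yc.card ≤ b ∧
  ∃ Tc : Finset (Fin n), Tc.card ≤ b ∧ ∃ Qc : Finset (Fin n), Qc.card ≤ b ∧
  (Num (B : ℕ) (M : ℕ) 0 Nc ∧ (Num (B : ℕ) (M : ℕ) 0 Pc ∧ (Num (B : ℕ) (M : ℕ) 0 Mc ∧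
  (Num (B : ℕ) (M : ℕ) 0 Yc ∧ (Num (B : ℕ) (M : ℕ) 0 Tc ∧ (Num (B : ℕ) (M : ℕ) 0 Qc ∧
  (Dig3 (B : ℕ) (M : ℕ) Nc a0 a1 1 ∧ (Dig3 (B : ℕ) (M : ℕ) Tc t 0 0 ∧
  (OneAt (B : ℕ) (M : ℕ) (g : ℕ) Pc ∧ (OneAt (B : ℕ) (M : ℕ) (q : ℕ) Qc ∧
  (HZ (B : ℕ) (M : ℕ) (q : ℕ) Mc ∧ (HZ (B : ℕ) (M : ℕ) (q : ℕ) Yc ∧
  (P1 n b ![B, M] ![Mc, Nc, Pc] ∧ (PowP b (B : ℕ) (M : ℕ) k Mc Yc ∧
  P3 n b ![B, M] ![Yc, Tc, Qc]))))))))))))))

/-- the diagonal predicate -/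
def DpT (PT : Pd 2 2) (P1 P3 : Pd 2 3) (K κ : ℕ) : Pd 0 0 := fun n b _ _ =>
  ∃ B x g q M m0 j C k t a0 a1 : Fin n,
    ((∀ y : Fin n, ¬ (m0 : ℕ) < (y : ℕ)) ∧
    ((B : ℕ) * B + x = (m0 : ℕ) ∧
    (((x : ℕ) < 2 * (B : ℕ) + 1 ∧ 2 * (B : ℕ) + 1 < n) ∧
    (((g : ℕ) ^ K = (g : ℕ) ^ K ∧ (g : ℕ) ^ K < n) ∧
    (¬ (((g : ℕ) + 1) ^ K = ((g : ℕ) + 1) ^ K ∧ ((g : ℕ) + 1) ^ K < n) ∧
    ((g : ℕ) ^ κ = (q : ℕ) ∧
    ((g : ℕ) ^ (κ + 2) = (M : ℕ) ∧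
    ((C : ℕ) * C + (((k : ℕ) + t) ^ 2 + k) = (j : ℕ) ∧
    ((((k : ℕ) + t) ^ 2 + k < 2 * (C : ℕ) + 1 ∧ 2 * (C : ℕ) + 1 < n) ∧
    (((a1 : ℕ) * B + a0 = (x : ℕ) + 1 ∧ (x : ℕ) + 1 < n) ∧
    ((a0 : ℕ) < (B : ℕ) ∧
    ((a1 : ℕ) < (B : ℕ) ∧
    ((j : ℕ) < (B : ℕ) ∧
    ((∃ V : Finset (Fin n), V.card ≤ b ∧ (CntP PT K b B M g V ∧
      inV V ((g : ℕ) * (B : ℕ) + (j : ℕ)))) ∧
    ¬ ReqP P1 P3 b B M g q (a0 : ℕ) (a1 : ℕ) (k : ℕ) (t : ℕ)))))))))))))))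

/-! ### Definability -/

section

variable {k m : ℕ}

lemma NS_oneAt (iB iM ig : Fin k) (X : Fin m) :
    NS k m (fun _ _ v V => OneAt (v iB : ℕ) (v iM : ℕ) (v ig : ℕ) (V X)) := by
  unfold OneAt
  refine NS.alllt iM (NS.and (NS.imp (NS.eqn 0 ig.succ) (NS.inV
    (((IsPoly.var 0).mul (IsPoly.var iB.succ)).add (pc 1)) X))
    (NS.imp (NS.eqn 0 ig.succ).not (NS.inV
    (((IsPoly.var 0).mul (IsPoly.var iB.succ)).add (pc 0)) X)))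

lemma NS_InT {PT : Pd 2 2} (hT : NS 2 2 PT) (iB iM ig iy : Fin k) :
    NS k m (fun _ b v _ => InT PT b (v iB) (v iM) (v ig) (v iy : ℕ)) := by
  unfold InT
  refine NS.exlt iB (NS.exlt iB.succ (NS.exlt iB.succ.succ ?_))
  -- `y2` 0, `y1` 1, `y0` 2
  refine NS.and (NS.val (((IsPoly.var 2).add ((IsPoly.var 1).mul
    (IsPoly.var iB.succ.succ.succ))).add (((IsPoly.var 0).mul (IsPoly.var iB.succ.succ.succ)).mul
    (IsPoly.var iB.succ.succ.succ))) iy.succ.succ.succ) ?_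
  refine NS.exS (NS.exS ?_)
  -- `Pc` 0, `Yc` 1
  refine NS.and (NS.num iB.succ.succ.succ iM.succ.succ.succ (pc 0) 1) (NS.and
    (NS.num iB.succ.succ.succ iM.succ.succ.succ (pc 0) 0) (NS.and
    (NS.dig3 iB.succ.succ.succ iM.succ.succ.succ (IsPoly.var 2) (IsPoly.var 1) (IsPoly.var 0) 1)
    (NS.and (NS_oneAt iB.succ.succ.succ iM.succ.succ.succ ig.succ.succ.succ 0) ?_)))
  refine (hT.sub (k' := k + 3) (m' := m + 2) ![iB.succ.succ.succ, iM.succ.succ.succ]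
      ![1, 0]).congr (fun n b v V => ?_)
  have e1 : (v ∘ ![iB.succ.succ.succ, iM.succ.succ.succ]) =
      ![v iB.succ.succ.succ, v iM.succ.succ.succ] := by
    funext i
    fin_cases i <;> rfl
  have e2 : (V ∘ ![1, 0]) = ![V 1, V 0] := by
    funext i
    fin_cases i <;> rfl
  rw [e1, e2]
  exact Iff.rfl

lemma NS_Lev {PT : Pd 2 2} (hT : NS 2 2 PT) (K : ℕ) (iB iM ig ia : Fin k) :
    NS k m (fun _ b v _ => Lev PT K b (v iB) (v iM) (v ig) (v ia : ℕ)) := by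
  unfold Lev
  refine NS.ex ?_
  refine NS.and (NS.ltv ((IsPoly.var ia.succ).pow K) 0) (NS.and (NS.not
    (NS.ltv (((IsPoly.var ia.succ).add (pc 1)).pow K) 0)) ?_)
  exact NS_InT hT iB.succ iM.succ ig.succ 0

lemma NS_CntP {PT : Pd 2 2} (hT : NS 2 2 PT) (K : ℕ) (iB iM ig : Fin k) (V : Fin m) :
    NS k m (fun _ b v W => CntP PT K b (v iB) (v iM) (v ig) (W V)) := by
  unfold CntP
  refine NS.and (NS.alllt iB (NS.iff (NS.inV (((pc 0).mul (IsPoly.var iB.succ)).add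
    (IsPoly.var 0)) V) (NS.zero 0))) ?_
  refine NS.alllt ig (NS.alllt iB.succ (NS.iff (NS.inV ((((IsPoly.var 1).add (pc 1)).mul
    (IsPoly.var iB.succ.succ)).add (IsPoly.var 0)) V) ?_))
  refine NS.or (NS.and (NS_Lev hT K iB.succ.succ iM.succ.succ ig.succ.succ 1)
    (NS.exlt iB.succ.succ (NS.and (NS.val ((IsPoly.var 0).add (pc 1)) 1)
      (NS.inV (((IsPoly.var 2).mul (IsPoly.var iB.succ.succ.succ)).add (IsPoly.var 0)) V)))) ?_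
  exact NS.and (NS.not (NS_Lev hT K iB.succ.succ iM.succ.succ ig.succ.succ 1))
    (NS.inV (((IsPoly.var 1).mul (IsPoly.var iB.succ.succ)).add (IsPoly.var 0)) V)

lemma NS_ReqP {P1 P3 : Pd 2 3} (h1 : NS 2 3 P1) (h3 : NS 2 3 P3)
    (iB iM ig iq i0 i1 ik it : Fin k) :
    NS k m (fun _ b v _ => ReqP P1 P3 b (v iB) (v iM) (v ig) (v iq) (v i0 : ℕ) (v i1 : ℕ)
      (v ik : ℕ) (v it : ℕ)) := by
  unfold ReqP
  refine NS.exS (NS.exS (NS.exS (NS.exS (NS.exS (NS.exS ?_)))))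
  -- `Qc` 0, `Tc` 1, `Yc` 2, `Mc` 3, `Pc` 4, `Nc` 5
  refine NS.and (NS.num iB iM (pc 0) 5) (NS.and (NS.num iB iM (pc 0) 4)
    (NS.and (NS.num iB iM (pc 0) 3) (NS.and (NS.num iB iM (pc 0) 2)
    (NS.and (NS.num iB iM (pc 0) 1) (NS.and (NS.num iB iM (pc 0) 0) ?_)))))
  refine NS.and (NS.dig3 iB iM (IsPoly.var i0) (IsPoly.var i1) (pc 1) 5) ?_
  refine NS.and (NS.dig3 iB iM (IsPoly.var it) (pc 0) (pc 0) 1) ?_
  refine NS.and (NS_oneAt iB iM ig 4) (NS.and (NS_oneAt iB iM iq 0) ?_)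
  refine NS.and (NS.hz iB iM iq 3) (NS.and (NS.hz iB iM iq 2) ?_)
  refine NS.and ?_ (NS.and (NS.powP iB iM ik 3 2) ?_)
  · refine (h1.sub (k' := k) (m' := m + 6) ![iB, iM] ![3, 5, 4]).congr (fun n b v V => ?_)
    have e1 : (v ∘ ![iB, iM]) = ![v iB, v iM] := by
      funext i
      fin_cases i <;> rfl
    have e2 : (V ∘ ![3, 5, 4]) = ![V 3, V 5, V 4] := by
      funext i
      fin_cases i <;> rfl
    rw [e1, e2]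
    exact Iff.rfl
  · refine (h3.sub (k' := k) (m' := m + 6) ![iB, iM] ![2, 1, 0]).congr (fun n b v V => ?_)
    have e1 : (v ∘ ![iB, iM]) = ![v iB, v iM] := by
      funext i
      fin_cases i <;> rfl
    have e2 : (V ∘ ![2, 1, 0]) = ![V 2, V 1, V 0] := by
      funext i
      fin_cases i <;> rfl
    rw [e1, e2]
    exact Iff.rfl

lemma NS_DpT {PT : Pd 2 2} {P1 P3 : Pd 2 3} (hT : NS 2 2 PT) (h1 : NS 2 3 P1) (h3 : NS 2 3 P3)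
    (K κ : ℕ) : NS 0 0 (DpT PT P1 P3 K κ) := by
  unfold DpT
  refine NS.ex (NS.ex (NS.ex (NS.ex (NS.ex (NS.ex (NS.ex (NS.ex (NS.ex (NS.ex (NS.ex (NS.ex
    ?_)))))))))))
  -- `a1` 0, `a0` 1, `t` 2, `k` 3, `C` 4, `j` 5, `m0` 6, `M` 7, `q` 8, `g` 9, `x` 10, `B` 11
  have hr : Pool.Agent.Helper20.Spectra.IsPoly 12 (fun v => (v 3 + v 2) ^ 2 + v 3) :=
    (((IsPoly.var 3).add (IsPoly.var 2)).pow 2).add (IsPoly.var 3)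
  refine NS.and (NS.all (NS.lt 7 0).not) ?_
  refine NS.and (NS.val (((IsPoly.var 11).mul (IsPoly.var 11)).add (IsPoly.var 10)) 6) ?_
  refine NS.and (NS.plt (IsPoly.var 10) (((pc 2).mul (IsPoly.var 11)).add (pc 1))) ?_
  refine NS.and (NS.peq ((IsPoly.var 9).pow K) ((IsPoly.var 9).pow K)) ?_
  refine NS.and (NS.not (NS.peq (((IsPoly.var 9).add (pc 1)).pow K)
    (((IsPoly.var 9).add (pc 1)).pow K))) ?_
  refine NS.and (NS.val ((IsPoly.var 9).pow κ) 8) ?_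
  refine NS.and (NS.val ((IsPoly.var 9).pow (κ + 2)) 7) ?_
  refine NS.and (NS.val (((IsPoly.var 4).mul (IsPoly.var 4)).add hr) 5) ?_
  refine NS.and (NS.plt hr (((pc 2).mul (IsPoly.var 4)).add (pc 1))) ?_
  refine NS.and (NS.peq (((IsPoly.var 0).mul (IsPoly.var 11)).add (IsPoly.var 1))
    ((IsPoly.var 10).add (pc 1))) ?_
  refine NS.and (NS.lt 1 11) ?_
  refine NS.and (NS.lt 0 11) ?_
  refine NS.and (NS.lt 5 11) ?_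
  refine NS.and (NS.exS (NS.and (NS_CntP hT K 11 7 9 0) (NS.inV (((IsPoly.var 9).mul
    (IsPoly.var 11)).add (IsPoly.var 5)) 0))) ?_
  exact NS.not (NS_ReqP h1 h3 11 7 9 8 1 0 3 2)

end

end Pool.Agent.Helper20.QG
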