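import Pool.Agent.Helper20.QG.H2

/-!
# The diagonal set against the polynomial-time hierarchy: the predicate
-/

set_option autoImplicit false

namespace Pool.Agent.Helper20.QG

open FirstOrder Pool.Agent.Helper20.Spectra Pool.Agent.Helper14.SS Pool.Agent.Helper12.SS

lemma root_uniq {K g g' n : ℕ} (h1 : g ^ K < n) (h2 : n ≤ (g + 1) ^ K) (h1' : g' ^ K < n)
    (h2' : n ≤ (g' + 1) ^ K) : g = g' := by
  rcases Nat.lt_trichotomy g g' with h | h | h
  · have := Nat.pow_le_pow_left (show g + 1 ≤ g' by omega) K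
    omega
  · exact h
  · have := Nat.pow_le_pow_left (show g' + 1 ≤ g by omega) K
    omega

/-- the numbers which belong to `n` -/
structure Nb (n b B x g κ e : ℕ) : Prop where
  hn : B * B + x + 1 = n
  hx : x < 2 * B + 1
  κ4 : 4 ≤ κ
  hb : (g ^ (κ + 2) + 1) * g ^ (κ + 2) ≤ b
  hB : (g ^ (κ + 2) + 1) * g ^ (κ + 2) ≤ B
  he : e + 3 ≤ g

section

variable {n b B x g κ e : ℕ}

lemma Nb.g_lt (h : Nb n b B x g κ e) : g < g ^ (κ + 2) := by
  have := h.he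
  calc g = g ^ 1 := (pow_one g).symm
    _ < g ^ (κ + 2) := Nat.pow_lt_pow_right (by omega) (by omega)

lemma Nb.q_lt (h : Nb n b B x g κ e) : g ^ κ < g ^ (κ + 2) := by
  have := h.he
  exact Nat.pow_lt_pow_right (by omega) (by omega)

lemma Nb.g_le (h : Nb n b B x g κ e) : g ≤ g ^ κ :=
  Nat.le_self_pow (by have := h.κ4; omega) _

lemma Nb.two_le (h : Nb n b B x g κ e) : 2 * g ^ (κ + 2) ≤ (g ^ (κ + 2) + 1) * g ^ (κ + 2) := by
  have h1 := h.g_lt
  have h2 := h.he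
  exact Nat.mul_le_mul_right _ (by omega)

lemma Nb.g_two (h : Nb n b B x g κ e) : 2 * g < B := by
  have h1 := h.g_lt
  have h2 := h.two_le
  have h3 := h.hB
  omega

lemma Nb.pow (h : Nb n b B x g κ e) {q : ℕ} (hq1 : 1 ≤ q) (hq : q ≤ g ^ κ) :
    (B ^ q + 2) ^ e ≤ B ^ (g ^ (κ + 2)) := by
  have h1 := h.g_two
  have h2 := h.he
  have h3 : B ^ q + 2 ≤ B ^ (q + 1) := by
    have h4 : B ≤ B ^ q := Nat.le_self_pow (by omega) _
    have h5 : B ^ q * 2 ≤ B ^ q * B := Nat.mul_le_mul_left _ (by omega)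
    rw [pow_succ]
    omega
  calc (B ^ q + 2) ^ e ≤ (B ^ (q + 1)) ^ e := Nat.pow_le_pow_left h3 _
    _ = B ^ ((q + 1) * e) := by rw [← pow_mul]
    _ ≤ B ^ (g ^ (κ + 2)) := by
      apply Nat.pow_le_pow_right (by omega)
      have h6 : (q + 1) * e ≤ (g ^ κ + g ^ κ) * g :=
        Nat.mul_le_mul (by omega) (by omega)
      have h7 : (g ^ κ + g ^ κ) * g ≤ g ^ κ * (g * g) := by
        have : g ^ κ * (2 * g) ≤ g ^ κ * (g * g) :=
          Nat.mul_le_mul_left _ (Nat.mul_le_mul_right _ (by omega))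
        calc (g ^ κ + g ^ κ) * g = g ^ κ * (2 * g) := by ring
          _ ≤ _ := this
      calc (q + 1) * e ≤ g ^ κ * (g * g) := h6.trans h7
        _ = g ^ (κ + 2) := by ring

lemma Nb.n_lt (h : Nb n b B x g κ e) : (g ^ (κ + 2) + 1) * g ^ (κ + 2) * B < n := by
  have h1 : (g ^ (κ + 2) + 1) * g ^ (κ + 2) * B ≤ B * B := Nat.mul_le_mul_right _ h.hB
  have := h.hn
  omega

lemma Nb.sq (h : Nb n b B x g κ e) : 6 * B ≤ B * B := by
  have h1 := h.g_two
  have h2 := h.he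
  exact Nat.mul_le_mul_right _ (by omega)

lemma Nb.n3 (h : Nb n b B x g κ e) : n ≤ B ^ 3 := by
  have h1 := h.sq
  have h2 := h.hn
  have h3 := h.hx
  have h4 := h.g_two
  have h5 := h.he
  have h6 : B * B * 2 ≤ B * B * B := Nat.mul_le_mul_left _ (by omega)
  calc n ≤ B * B * 2 := by omega
    _ ≤ B * B * B := h6
    _ = B ^ 3 := by ring

lemma Nb.pr (h : Nb n b B x g κ e) : Pr n b B (g ^ (κ + 2)) g e := by
  have h1 := h.g_two
  have h2 := h.he
  have h3 := h.n_lt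
  have h4 := h.hn
  exact ⟨⟨by omega, by omega, h.hb, h3.le⟩, by omega, by omega, by omega, h.g_lt, h.n3⟩

lemma Nb.m_lt (h : Nb n b B x g κ e) {k : ℕ} (hk : k ≤ g) :
    ((n + B ^ g) ^ 2 + n) ^ (k + 1) < B ^ (g ^ κ) := by
  have h1 := h.g_two
  have h2 := h.he
  have hn := h.pr.hp
  have h3 : (n + B ^ g) ^ 2 + n ≤ B ^ (2 * g + 3) := by
    have h4 : (n + B ^ g) ^ 2 ≤ (2 * B ^ g) ^ 2 := Nat.pow_le_pow_left (by omega) 2
    have h5 : (2 * B ^ g) ^ 2 = 4 * (B ^ g * B ^ g) := by ring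
    have h6 : B ^ g * 1 ≤ B ^ g * B ^ g := Nat.mul_le_mul_left _ (Nat.one_le_pow _ _ (by omega))
    have h7 : B ^ g * B ^ g * 5 ≤ B ^ g * B ^ g * B ^ 3 := by
      apply Nat.mul_le_mul_left
      have : B ≤ B ^ 3 := Nat.le_self_pow (by omega) _
      omega
    calc (n + B ^ g) ^ 2 + n ≤ B ^ g * B ^ g * 5 := by omega
      _ ≤ B ^ g * B ^ g * B ^ 3 := h7
      _ = B ^ (2 * g + 3) := by ring
  have h8 : (2 * g + 3) * (k + 1) < g ^ κ := by
    have h9 : (2 * g + 3) * (k + 1) ≤ (3 * g) * (2 * g) :=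
      Nat.mul_le_mul (by omega) (by omega)
    have h10 : (3 * g) * (2 * g) < g ^ 4 := by
      have h11 : 3 * 3 ≤ g * g := Nat.mul_le_mul (by omega) (by omega)
      have h12 : (g * g) * 6 < (g * g) * (g * g) := Nat.mul_lt_mul_of_pos_left (by omega) (by omega)
      calc (3 * g) * (2 * g) = (g * g) * 6 := by ring
        _ < (g * g) * (g * g) := h12
        _ = g ^ 4 := by ring
    have h13 : g ^ 4 ≤ g ^ κ := Nat.pow_le_pow_right (by omega) h.κ4
    omega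
  calc ((n + B ^ g) ^ 2 + n) ^ (k + 1) ≤ (B ^ (2 * g + 3)) ^ (k + 1) := Nat.pow_le_pow_left h3 _
    _ = B ^ ((2 * g + 3) * (k + 1)) := by rw [← pow_mul]
    _ < B ^ (g ^ κ) := Nat.pow_lt_pow_right (by omega) h8

end

open Classical in
lemma DpT_iff {PT : Pd 2 2} {P1 P3 : Pd 2 3} {e : ℕ} {ET EU T : Set ℕ} (hT : Ev PT e (ST ET))
    (h1 : Ev P1 e SP) (h3 : Ev P3 e (S3 EU)) {K κ n b B x g C k t : ℕ}
    (h : Nb n b B x g κ e) (hg1 : g ^ K < n) (hg2 : n ≤ (g + 1) ^ K)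
    (hET : ∀ y, 1 ≤ y → y < n → (y ∈ T ↔ (y + B ^ g) ^ 2 + y ∈ ET))
    (hC : C * C + ((k + t) ^ 2 + k) = Nat.count (lev T K) g) (hr : (k + t) ^ 2 + k < 2 * C + 1)
    (v : Fin 0 → Fin n) (V : Fin 0 → Finset (Fin n)) :
    DpT PT P1 P3 K κ n b v V ↔
      ¬ (ux (((n + B ^ g) ^ 2 + n) ^ (k + 1)) t + B ^ (g ^ κ)) *
        (ux (((n + B ^ g) ^ 2 + n) ^ (k + 1)) t + B ^ (g ^ κ)) +
        ux (((n + B ^ g) ^ 2 + n) ^ (k + 1)) t ∈ EU := by
  have hg2B := h.g_two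
  have hgM := h.g_lt
  have hqM := h.q_lt
  have hgq := h.g_le
  have hMM := h.two_le
  have hMB := h.hB
  have hMb := h.hb
  have hnn := h.n_lt
  have he := h.he
  have hn := h.hn
  have hx := h.hx
  have hsq := h.sq
  have hjg : Nat.count (lev T K) g ≤ g := Nat.count_le (lev T K)
  have hCC : C ≤ C * C := Nat.le_mul_self C
  have hkk : k ≤ (k + t) ^ 2 + k := by omega
  have hktt : t ≤ (k + t) ^ 2 := by
    have : (k + t) * 1 ≤ (k + t) * (k + t) ∨ k + t = 0 := by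
      rcases Nat.eq_zero_or_pos (k + t) with h0 | h0
      · exact Or.inr h0
      · exact Or.inl (Nat.mul_le_mul_left _ h0)
    rw [pow_two]
    omega
  have hkg : k ≤ g := by omega
  have htB : t < B := by omega
  have hgB : (g + 1) * B ≤ B * B := Nat.mul_le_mul_right _ (by omega)
  -- the reading of the parts of the predicate, for all names of the numbers
  have part1 : ∀ {Bf Mf gf : Fin n}, (Bf : ℕ) = B → (Mf : ℕ) = g ^ (κ + 2) → (gf : ℕ) = g →
      ∀ {j : ℕ}, j < B → ((∃ V : Finset (Fin n), V.card ≤ b ∧ (CntP PT K b Bf Mf gf V ∧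
        inV V ((gf : ℕ) * (Bf : ℕ) + j))) ↔ j = Nat.count (lev T K) g) := by
    intro Bf Mf gf eB eM eg j hj
    have pr : Pr n b (Bf : ℕ) (Mf : ℕ) (gf : ℕ) e := by rw [eB, eM, eg]; exact h.pr
    have hpow : ((Bf : ℕ) ^ (gf : ℕ) + 2) ^ e ≤ (Bf : ℕ) ^ (Mf : ℕ) := by
      rw [eB, eM, eg]; exact h.pow (by omega) hgq
    have hl : ∀ a, a < (gf : ℕ) → (Lev PT K b Bf Mf gf a ↔ lev T K a) := by
      intro a ha
      refine lev_iff pr hT hpow (fun y hy1 hy2 => ?_) (by rw [eg]; exact hg1) ha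
      rw [eB, eg]; exact hET y hy1 hy2
    rw [cntP_iff hl (by omega) (by rw [eB, eg]; omega) (by omega) (by omega), eg]
  have part2 : ∀ {Bf Mf gf qf : Fin n}, (Bf : ℕ) = B → (Mf : ℕ) = g ^ (κ + 2) → (gf : ℕ) = g →
      (qf : ℕ) = g ^ κ → ∀ {a0 a1 : ℕ}, a0 < B → a1 < B → a1 * B + a0 = x + 1 →
      (ReqP P1 P3 b Bf Mf gf qf a0 a1 k t ↔
        (ux (((n + B ^ g) ^ 2 + n) ^ (k + 1)) t + B ^ (g ^ κ)) *
        (ux (((n + B ^ g) ^ 2 + n) ^ (k + 1)) t + B ^ (g ^ κ)) +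
        ux (((n + B ^ g) ^ 2 + n) ^ (k + 1)) t ∈ EU) := by
    intro Bf Mf gf qf eB eM eg eq a0 a1 h0 ha1 h01
    have pr : Pr n b (Bf : ℕ) (Mf : ℕ) (gf : ℕ) e := by rw [eB, eM, eg]; exact h.pr
    have hm := h.m_lt hkg
    have hm0 := h.m_lt (Nat.zero_le g)
    rw [zero_add, pow_one] at hm0
    have := reqP_iff (q := qf) (a0 := a0) (a1 := a1) (k := k) (t := t) pr h1 h3 (by omega)
      (by omega) (by rw [eB, eM, eq]; exact h.pow (by omega) le_rfl) (by omega) (by omega)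
      (by rw [eB, one_mul]; omega) (by omega) (by omega) (by omega)
      (by rw [eB, eg, eq]; exact hm0) (by rw [eB, eg, eq]; exact hm)
    rw [this, eB, eg, eq]
  constructor
  · rintro ⟨B', x', g', q', M', m0, j', C', k', t', a0, a1, c1, c2, ⟨c3, c3'⟩, ⟨_, c4⟩, c5, c6, c7,
      c8, ⟨c9, c9'⟩, ⟨c10, c10'⟩, c11, c12, c13, c14, hneg⟩
    have hm0 : (m0 : ℕ) = B * B + x := by
      have h4 := c1 ⟨n - 1, by omega⟩
      have h5 := m0.is_lt
      simp only at h4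
      omega
    rw [hm0] at c2
    obtain ⟨eB, ex⟩ := sq_unique c2 c3 hx
    have eg : (g' : ℕ) = g := root_uniq c4 (by
      by_contra hc
      exact c5 ⟨rfl, by omega⟩) hg1 hg2
    rw [eg] at c6 c7
    rw [eB] at c10 c11 c12 c13
    rw [ex] at c10
    rw [part1 eB c7.symm eg c13] at c14
    rw [c14, ← hC] at c8
    obtain ⟨eC, er⟩ := sq_unique c8 c9 hr
    obtain ⟨ek, et⟩ := pr2_inj (x := (k' : ℕ)) (y := (t' : ℕ)) (x' := k) (y' := t) er
    rw [ek, et, part2 eB c7.symm eg c6.symm c11 c12 c10] at hneg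
    exact hneg
  · intro hneg
    have ha := Nat.div_add_mod (x + 1) B
    have ha0 : (x + 1) % B < B := Nat.mod_lt _ (by omega)
    have ha1 : (x + 1) / B < B := by
      rw [Nat.div_lt_iff_lt_mul (by omega)]
      omega
    obtain ⟨j, hj⟩ : ∃ j, j = Nat.count (lev T K) g := ⟨_, rfl⟩
    rw [← hj] at hC hjg
    have h01 : (x + 1) / B * B + (x + 1) % B = x + 1 := by
      rw [mul_comm]; exact ha
    refine ⟨⟨B, by omega⟩, ⟨x, by omega⟩, ⟨g, by omega⟩, ⟨g ^ κ, by omega⟩,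
      ⟨g ^ (κ + 2), by omega⟩, ⟨n - 1, by omega⟩, ⟨j, by omega⟩, ⟨C, by omega⟩, ⟨k, by omega⟩,
      ⟨t, by omega⟩, ⟨(x + 1) % B, by omega⟩, ⟨(x + 1) / B, by omega⟩, ?_, ?_, ⟨?_, ?_⟩,
      ⟨rfl, hg1⟩, ?_, rfl, rfl, hC, ⟨hr, ?_⟩, ⟨h01, ?_⟩, ha0, ha1, ?_, ?_, ?_⟩
    · intro y
      have := y.is_lt
      show ¬ (n - 1 < (y : ℕ))
      omega
    · show B * B + x = n - 1
      omega
    · exact hx
    · show 2 * B + 1 < n
      omega
    · rintro ⟨_, hc⟩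
      simp only at hc
      omega
    · show 2 * C + 1 < n
      omega
    · show x + 1 < n
      omega
    · show j < B
      omega
    · exact (part1 rfl rfl rfl (by show j < B; omega)).2 hj
    · intro hq
      apply hneg
      exact (part2 (Bf := ⟨B, by omega⟩) (Mf := ⟨g ^ (κ + 2), by omega⟩) (gf := ⟨g, by omega⟩)
        (qf := ⟨g ^ κ, by omega⟩) rfl rfl rfl rfl ha0 ha1 h01).1 hq

end Pool.Agent.Helper20.QG
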