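import Pool.Agent.Helper20.QG.H3
import Pool.Agent.Helper14.QG.H0

/-!
# The diagonal set against the polynomial-time hierarchy
-/

set_option autoImplicit false

namespace Pool.Agent.Helper20.QG

open FirstOrder Pool.Agent.Helper20.Spectra Pool.Agent.Helper14.SS Pool.Agent.Helper12.SS
open Pool.Agent.Helper58.QD

theorem num_u (k t c K κ : ℕ) (hκ : 4 * c + 4 ≤ κ) : ∃ g₀, ∀ g, g₀ ≤ g → ∀ n B x,
    B * B + x + 1 = n → x < 2 * B + 1 → 4 ≤ B → n ≤ (g + 1) ^ K →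
    2 ^ ((Nat.log 2 (ux (((n + B ^ g) ^ 2 + n) ^ (k + 1)) t) + 1) ^ c) ≤ B ^ (g ^ κ) := by
  obtain ⟨g₀, hg₀⟩ := Pool.Agent.Helper14.QG.log_growth 1 K
  refine ⟨g₀ + 10 * k + 3 * t + 20, fun g hg n B x hn hx hB hgn => ?_⟩
  have hl : Nat.log 2 n + 1 ≤ g := by
    have := hg₀ g (by omega) n hgn
    rwa [pow_one] at this
  have hsq : 4 * B ≤ B * B := Nat.mul_le_mul_right _ hB
  have hBn : B ≤ n := by omega
  have hlB : Nat.log 2 B + 1 ≤ g := by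
    have := Nat.log_mono_right (b := 2) hBn
    omega
  have hn3 : n ≤ B ^ g := by
    have h6 : B * B * 2 ≤ B * B * B := Nat.mul_le_mul_left _ (by omega)
    calc n ≤ B * B * 2 := by omega
      _ ≤ B * B * B := h6
      _ = B ^ 3 := by ring
      _ ≤ B ^ g := Nat.pow_le_pow_right (by omega) (by omega)
  have h3 : (n + B ^ g) ^ 2 + n ≤ B ^ (2 * g + 3) := by
    have h4 : (n + B ^ g) ^ 2 ≤ (2 * B ^ g) ^ 2 := Nat.pow_le_pow_left (by omega) 2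
    have h5 : (2 * B ^ g) ^ 2 = 4 * (B ^ g * B ^ g) := by ring
    have h6 : B ^ g * 1 ≤ B ^ g * B ^ g := Nat.mul_le_mul_left _ (Nat.one_le_pow _ _ (by omega))
    have h7 : B ^ g * B ^ g * 5 ≤ B ^ g * B ^ g * B ^ 3 := by
      apply Nat.mul_le_mul_left
      have : B * B ≤ B ^ 3 := by
        calc B * B = B ^ 2 := by ring
          _ ≤ B ^ 3 := Nat.pow_le_pow_right (by omega) (by omega)
      omega
    calc (n + B ^ g) ^ 2 + n ≤ B ^ g * B ^ g * 5 := by omega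
      _ ≤ B ^ g * B ^ g * B ^ 3 := h7
      _ = B ^ (2 * g + 3) := by ring
  have h8 : ((n + B ^ g) ^ 2 + n) ^ (k + 1) ≤ B ^ ((2 * g + 3) * (k + 1)) := by
    rw [pow_mul]
    exact Nat.pow_le_pow_left h3 _
  obtain ⟨X, hX⟩ : ∃ X, X = 2 * ((2 * g + 3) * (k + 1) + (2 + t)) + t + 1 := ⟨_, rfl⟩
  have h9 : ux (((n + B ^ g) ^ 2 + n) ^ (k + 1)) t < B ^ X := by
    refine lt_of_le_of_lt (ux_le (by omega) h8) ?_
    exact Nat.pow_lt_pow_right (by omega) (by omega)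
  have h10 := Pool.Agent.Helper14.QG.log_pow_le (by omega) h9 (by omega)
  have h11 : X ≤ g * g := by
    have h12 : X ≤ g * (10 * k + 3 * t + 20) := by
      have h13 : X = 4 * (g * (k + 1)) + 6 * (k + 1) + 3 * t + 5 := by rw [hX]; ring
      have h14 : g * (10 * k + 3 * t + 20) =
          4 * (g * (k + 1)) + (6 * (g * k) + 3 * (g * t) + 16 * g) := by ring
      have h15 : 1 * k ≤ g * k := Nat.mul_le_mul_right _ (by omega)
      have h16 : 1 * t ≤ g * t := Nat.mul_le_mul_right _ (by omega)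
      omega
    exact h12.trans (Nat.mul_le_mul_left _ (by omega))
  have h17 : Nat.log 2 (ux (((n + B ^ g) ^ 2 + n) ^ (k + 1)) t) + 1 ≤ g ^ 4 := by
    calc _ ≤ X * (Nat.log 2 B + 1) := h10
      _ ≤ (g * g) * g := Nat.mul_le_mul h11 hlB
      _ = g ^ 3 := by ring
      _ ≤ g ^ 4 := Nat.pow_le_pow_right (by omega) (by omega)
  have h18 : (Nat.log 2 (ux (((n + B ^ g) ^ 2 + n) ^ (k + 1)) t) + 1) ^ c ≤ g ^ κ := by
    calc _ ≤ (g ^ 4) ^ c := Nat.pow_le_pow_left h17 c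
      _ = g ^ (4 * c) := by rw [← pow_mul]
      _ ≤ g ^ κ := Nat.pow_le_pow_right (by omega) (by omega)
  calc _ ≤ 2 ^ (g ^ κ) := Nat.pow_le_pow_right (by omega) h18
    _ ≤ B ^ (g ^ κ) := Nat.pow_le_pow_left (by omega) _

theorem num_p (c K : ℕ) : ∃ g₀, ∀ g, g₀ ≤ g → ∀ n B y, n ≤ (g + 1) ^ K → y ≤ n → 2 ≤ B →
    2 ^ ((Nat.log 2 y + 1) ^ c) ≤ B ^ g := by
  obtain ⟨g₀, hg₀⟩ := Pool.Agent.Helper14.QG.log_growth c K
  refine ⟨g₀, fun g hg n B y hn hy hB => ?_⟩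
  calc 2 ^ ((Nat.log 2 y + 1) ^ c) ≤ 2 ^ g :=
        Nat.pow_le_pow_right (by omega) (hg₀ g hg y (hy.trans hn))
    _ ≤ B ^ g := Nat.pow_le_pow_left hB g

theorem num_s {κ g n B x : ℕ} (hg : 3 ≤ g) (h : g ^ (5 * (2 * κ + 5)) < n)
    (hn : B * B + x + 1 = n) (hx : x < 2 * B + 1) :
    (g ^ (κ + 2) + 1) * g ^ (κ + 2) ≤ sr n ∧ (g ^ (κ + 2) + 1) * g ^ (κ + 2) ≤ B := by
  obtain ⟨G, hG⟩ : ∃ G, G = g ^ (2 * κ + 5) := ⟨_, rfl⟩
  have h1 : (g ^ (κ + 2) + 1) * g ^ (κ + 2) ≤ G := by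
    have h2 : 1 ≤ g ^ (κ + 2) := Nat.one_le_pow _ _ (by omega)
    have h3 : g ^ (κ + 2) * 2 ≤ g ^ (κ + 2) * g := Nat.mul_le_mul_left _ (by omega)
    calc (g ^ (κ + 2) + 1) * g ^ (κ + 2) ≤ (g ^ (κ + 2) * g) * g ^ (κ + 2) :=
          Nat.mul_le_mul_right _ (by omega)
      _ = G := by rw [hG]; ring
  have h4 : G ^ 5 < n := by
    rw [hG, ← pow_mul, mul_comm (2 * κ + 5) 5]
    exact h
  have h5 : 1 ≤ G := by rw [hG]; exact Nat.one_le_pow _ _ (by omega)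
  constructor
  · refine h1.trans ?_
    refine Nat.le_findGreatest ?_ h4.le
    have : G ≤ G ^ 5 := Nat.le_self_pow (by omega) _
    omega
  · refine h1.trans ?_
    by_contra hc
    have h6 : (B + 1) * (B + 1) ≤ G * G := Nat.mul_le_mul (by omega) (by omega)
    have h7 : (B + 1) * (B + 1) = B * B + 2 * B + 1 := by ring
    have h8 : G * G ≤ G ^ 5 := by
      calc G * G = G ^ 2 := by ring
        _ ≤ G ^ 5 := Nat.pow_le_pow_right h5 (by omega)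
    omega

lemma lev_infinite {T : Set ℕ} {K : ℕ} (hK : 1 ≤ K) (hT : T.Infinite) :
    {a | lev T K a}.Infinite := by
  rw [Set.infinite_iff_exists_gt]
  intro a
  obtain ⟨y, hyT, hy⟩ := hT.exists_gt ((a + 1) ^ K)
  have hex : ∃ r, y ≤ (r + 1) ^ K :=
    ⟨y, (Nat.le_self_pow (by omega) _).trans (Nat.pow_le_pow_left (by omega) K)⟩
  classical
  have hr := Nat.find_spec hex
  have har : a < Nat.find hex := by
    by_contra hc
    have := Nat.pow_le_pow_left (show Nat.find hex + 1 ≤ a + 1 by omega) K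
    omega
  refine ⟨Nat.find hex, ⟨y, hyT, ?_, hr⟩, har⟩
  have h1 := Nat.find_min hex (m := Nat.find hex - 1) (by omega)
  have h2 : Nat.find hex - 1 + 1 = Nat.find hex := by omega
  rw [h2] at h1
  omega

open Classical in
theorem ex_lev {T : Set ℕ} {K : ℕ} (hK : 1 ≤ K) (hT : T.Infinite) (g₀ s : ℕ) :
    ∃ C g n, s < 2 * C + 1 ∧ g₀ ≤ g ∧ n ∈ T ∧ g ^ K < n ∧ n ≤ (g + 1) ^ K ∧
      C * C + s = Nat.count (lev T K) g := by
  have hi := lev_infinite hK hT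
  obtain ⟨C, hC⟩ : ∃ C, C = s + g₀ := ⟨_, rfl⟩
  obtain ⟨i, hii⟩ : ∃ i, i = C * C + s := ⟨_, rfl⟩
  obtain ⟨n, hn, h1, h2⟩ := Nat.nth_mem_of_infinite hi i
  refine ⟨C, Nat.nth (lev T K) i, n, by omega, ?_, hn, h1, h2, ?_⟩
  · have h3 : i ≤ Nat.nth (lev T K) i := by
      have := Nat.count_nth_of_infinite hi i
      rw [← this]
      exact (Nat.count_le (lev T K)).trans_eq (by rw [this])
    have := Nat.le_mul_self C
    omega
  · rw [Nat.count_nth_of_infinite hi i, hii]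

/-- the diagonal set, for all bounds `s` which are at least the fifth root -/
theorem diagG (s : ℕ → ℕ) (hs : ∀ n, sr n ≤ s n) (T : Set ℕ) (hTs : IsSpectrum T)
    (hTi : T.Infinite) (hS : ∀ A : Set ℕ, IsSpectrum A → PolyHier A) :
    ∃ φ : SFm ArL 0 0, ¬ PolyHier (T ∩ arithS s φ) := by
  obtain ⟨ET, cT, hET, hETT⟩ := hS T hTs
  obtain ⟨EU, cU, hEU, hEUU⟩ := hS _ univSizes_spectrum
  obtain ⟨e0, PT, hPT, hv0⟩ := trans t_num t_exCd t_add t_mul 2 (ST ET) (rud_ST hET)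
  obtain ⟨e1, P1, hP1, hv1⟩ := trans t_num t_exCd t_add t_mul 3 SP rud_SP
  obtain ⟨e3, P3, hP3, hv3⟩ := trans t_num t_exCd t_add t_mul 3 (S3 EU) (rud_S3 hEU)
  obtain ⟨e, he⟩ : ∃ e, e = e0 + e1 + e3 := ⟨_, rfl⟩
  have g0 : Ev PT e (ST ET) := Ev.mono hv0 (by omega)
  have g1 : Ev P1 e SP := Ev.mono hv1 (by omega)
  have g3 : Ev P3 e (S3 EU) := Ev.mono hv3 (by omega)
  obtain ⟨κ, hκ⟩ : ∃ κ, κ = 4 * cU + 4 := ⟨_, rfl⟩
  obtain ⟨K, hK⟩ : ∃ K, K = 5 * (2 * κ + 5) := ⟨_, rfl⟩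
  obtain ⟨φ, hφ⟩ := NS_DpT hPT hP1 hP3 K κ
  refine ⟨φ, fun hD => ?_⟩
  obtain ⟨E', c', hE', hX⟩ := hD
  -- `E'` without zero is a spectrum
  have hE0 : IsSpectrum {m | 1 ≤ m ∧ m ∈ E'} := by
    have h1 := hE'.preimage Polynomial.X
    have h2 : IsRudimentary {m | 1 ≤ m ∧ m ∈ E'} := by
      simpa using h1
    exact h2.isSpectrum (by rintro ⟨h3, _⟩; omega)
  obtain ⟨k, Θ, hΘ⟩ := spectrum_blocks hE0
  obtain ⟨t, rfl⟩ := exists_blk Θ
  have hk : ∀ m, 1 ≤ m → (m ∈ E' ↔ ux (m ^ (k + 1)) t ∈ univSizes) := by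
    intro m hm
    have h1 := hΘ m hm
    rw [← mem_univSizes t] at h1
    have h2 : (m ^ (k + 1) + 2 + t) ^ 2 + t = ux (m ^ (k + 1)) t := by unfold ux; ring
    rw [h2] at h1
    rw [← h1]
    exact ⟨fun h => ⟨hm, h⟩, fun h => h.2⟩
  obtain ⟨b1, hb1⟩ := num_u k t cU K κ hκ.ge
  obtain ⟨b2, hb2⟩ := num_p cT K
  obtain ⟨b3, hb3⟩ := num_p c' K
  obtain ⟨C, g, n, hC1, hg, hnT, hg1, hg2, hC2⟩ := ex_lev (K := K) (by omega) hTi
    (b1 + b2 + b3 + e + 3) ((k + t) ^ 2 + k)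
  have hn1 : 1 ≤ n := by omega
  obtain ⟨B, hB⟩ : ∃ B, B = Nat.sqrt (n - 1) := ⟨_, rfl⟩
  obtain ⟨x, hx⟩ : ∃ x, x = n - 1 - B * B := ⟨_, rfl⟩
  have hs1 : B * B ≤ n - 1 := by rw [hB]; exact Nat.sqrt_le (n - 1)
  have hs2 : n - 1 < (B + 1) * (B + 1) := by rw [hB]; exact Nat.lt_succ_sqrt (n - 1)
  have hs3 : (B + 1) * (B + 1) = B * B + 2 * B + 1 := by ring
  have hxn : B * B + x + 1 = n := by omega
  have hxB : x < 2 * B + 1 := by omega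
  obtain ⟨q1, q2⟩ := num_s (κ := κ) (g := g) (by omega) (by rw [← hK]; exact hg1) hxn hxB
  have nb : Nb n (s n) B x g κ e := ⟨hxn, hxB, by omega, q1.trans (hs n), q2, by omega⟩
  have hB2 := nb.g_two
  have hTE : ∀ y, 1 ≤ y → y < n → (y ∈ T ↔ (y + B ^ g) ^ 2 + y ∈ ET) := fun y hy1 hy2 =>
    hETT y hy1 _ (hb2 g (by omega) n B y hg2 hy2.le (by omega))
  have h5 := DpT_iff g0 g1 g3 nb hg1 hg2 hTE hC2 hC1 Fin.elim0 Fin.elim0
  have h6 := hX n hn1 (B ^ g) (hb3 g (by omega) n B n hg2 le_rfl (by omega))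
  have h7 := hk ((n + B ^ g) ^ 2 + n) (by omega)
  have h8 := hEUU (ux (((n + B ^ g) ^ 2 + n) ^ (k + 1)) t) (one_le_ux _ _) (B ^ (g ^ κ))
    (hb1 g (by omega) n B x hxn hxB (by omega) hg2)
  rw [← pow_two, ← h8, ← h7, ← h6] at h5
  have h9 : n ∈ T ∩ arithS s φ ↔ DpT PT P1 P3 K κ n (s n) Fin.elim0 Fin.elim0 := by
    rw [← hφ]
    exact ⟨fun h => h.2.2, fun h => ⟨hnT, hn1, h⟩⟩
  rw [h9] at h5
  tauto

theorem diagT : StmtDiagT := fun T h1 h2 h3 => diagG sr (fun _ => le_rfl) T h1 h2 h3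

/-- all sets -/
theorem diagL (T : Set ℕ) (hTs : IsSpectrum T) (hTi : T.Infinite)
    (hS : ∀ A : Set ℕ, IsSpectrum A → PolyHier A) :
    ∃ φ : SFm ArL 0 0, ¬ PolyHier (T ∩ arithS (fun n => n) φ) :=
  diagG (fun n => n) (fun n => Nat.findGreatest_le n) T hTs hTi hS

end Pool.Agent.Helper20.QG
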